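import Pool.Agent.FS.LightPairs.Count

namespace Pool.Agent.Results.MP_bd7e44_co.LightPairs

open Pool.Agent.FS.LightPairs

/-- Call a linear extension of a finite poset admissible if it places `q` below `p` for every light
pair `(p, q)` of incomparable elements. Let the poset not be a chain, and suppose that no
admissible linear extension places in the order `a, b, c` three pairwise incomparable elements for
which some `z` incomparable to `b` lies above both `a` and `c` or below both. Then there are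
distinct `x, y` such that the fraction of linear extensions placing `x` above `y` lies between one
third and two thirds. -/
theorem result :
    ∀ (X : Type) [Fintype X] [PartialOrder X],
      (∀ L : X ≃ Fin (Fintype.card X), StrictMono (⇑L) →
        (∀ p q, Inc p q → Light p q → L q < L p) →
        ∀ a b c z, Inc a b → Inc b c → Inc a c → Inc b z →
          ((a < z ∧ c < z) ∨ (z < a ∧ z < c)) → ¬ (L a < L b ∧ L b < L c)) →
      (∃ a b : X, ¬ a ≤ b ∧ ¬ b ≤ a) →
      ∃ x y : X, x ≠ y ∧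
        (1 / 3 : ℝ) ≤
          (({f : X ≃ Fin (Fintype.card X) | StrictMono (⇑f) ∧ f y < f x}.ncard : ℕ) : ℝ) /
            (({f : X ≃ Fin (Fintype.card X) | StrictMono (⇑f)}.ncard : ℕ) : ℝ) ∧
        (({f : X ≃ Fin (Fintype.card X) | StrictMono (⇑f) ∧ f y < f x}.ncard : ℕ) : ℝ) /
            (({f : X ≃ Fin (Fintype.card X) | StrictMono (⇑f)}.ncard : ℕ) : ℝ) ≤ (2 / 3 : ℝ) := by
  intro X _ _ H hab
  have he := e_pos X
  by_contra hc
  have hM := maj (Y := Fin (Fintype.card X)) he fun x y hxy => by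
    by_contra hh
    push Not at hh
    have hp : (0 : ℝ) < e X (Fin (Fintype.card X)) := by exact_mod_cast he
    have a1 : (e X (Fin (Fintype.card X)) : ℝ) ≤ 3 * N (Fin (Fintype.card X)) x y := by
      exact_mod_cast hh.1
    have a2 : (3 * N (Fin (Fintype.card X)) x y : ℝ) ≤ 2 * e X (Fin (Fintype.card X)) := by
      exact_mod_cast hh.2
    refine hc ⟨y, x, hxy.symm, ?_, ?_⟩
    · change (1 / 3 : ℝ) ≤ (N (Fin (Fintype.card X)) x y : ℝ) / e X (Fin (Fintype.card X))
      rw [le_div_iff₀ hp]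
      linarith
    · change (N (Fin (Fintype.card X)) x y : ℝ) / e X (Fin (Fintype.card X)) ≤ (2 / 3 : ℝ)
      rw [div_le_iff₀ hp]
      linarith
  obtain ⟨ρ, h1, h2, h3, h4⟩ := exists_rank hM
  let L : X ≃ Fin (Fintype.card X) := Equiv.ofBijective (fun x => ⟨ρ x, h2 x⟩)
    ⟨fun s t hst => h3 (congrArg Fin.val hst), fun k => by
      obtain ⟨s, hs⟩ := h4 k.1 k.2
      exact ⟨s, Fin.ext hs⟩⟩
  have hL : ∀ s t, L s < L t ↔ ρ s < ρ t := fun s t => Iff.rfl
  have H' := H L (fun s t hst => (hL s t).2 ((h1 s t).1 (hM.ext s t hst))) fun p q hi hl =>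
    (hL q p).2 ((h1 q p).1 ((hM.total p q hi.ne).resolve_left (hM.light hi hl)))
  refine count hM (fun u v y z a1 a2 i1 i2 i3 i4 m1 m2 => ?_)
    (fun y u v w a1 a2 i1 i2 i3 i4 m1 m2 => ?_) hab
  · exact H' u v y z i1 i2 i3 i4 (Or.inl ⟨a1, a2⟩)
      ⟨(hL _ _).2 ((h1 _ _).1 m1), (hL _ _).2 ((h1 _ _).1 m2)⟩
  · exact H' y u v w i1 i2 i3 i4 (Or.inr ⟨a1, a2⟩)
      ⟨(hL _ _).2 ((h1 _ _).1 m2), (hL _ _).2 ((h1 _ _).1 m1)⟩

end Pool.Agent.Results.MP_bd7e44_co.LightPairs
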