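import Pool.Agent.Lib.MP_bd7e44_co.Final

namespace Pool.Agent.Results.MP_bd7e44_co.WidthThree

open Pool.Agent.Lib.MP_bd7e44_co

/-- Let a finite poset that is not a chain be narrow at the bottom: every element of an antichain
of size four has below it at least eight elements that are incomparable to something. (This holds
in particular for every poset of width at most three.) Then there are distinct `x, y` such that
the fraction of linear extensions placing `x` above `y` lies between one third and two thirds. -/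
theorem result :
    ∀ (X : Type) [Fintype X] [PartialOrder X],
      (∀ s : Finset X, IsAntichain (· ≤ ·) (s : Set X) → s.card = 4 →
        ∀ x ∈ s, 8 ≤ {w : X | w < x ∧ ∃ v, ¬ w ≤ v ∧ ¬ v ≤ w}.ncard) →
      (∃ a b : X, ¬ a ≤ b ∧ ¬ b ≤ a) →
      ∃ x y : X, x ≠ y ∧
        (1 / 3 : ℝ) ≤
          (({f : X ≃ Fin (Fintype.card X) | StrictMono (⇑f) ∧ f y < f x}.ncard : ℕ) : ℝ) /
            (({f : X ≃ Fin (Fintype.card X) | StrictMono (⇑f)}.ncard : ℕ) : ℝ) ∧
        (({f : X ≃ Fin (Fintype.card X) | StrictMono (⇑f) ∧ f y < f x}.ncard : ℕ) : ℝ) /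
            (({f : X ≃ Fin (Fintype.card X) | StrictMono (⇑f)}.ncard : ℕ) : ℝ) ≤ (2 / 3 : ℝ) := by
  intro X _ _ hw hab
  have h := not_noBal _ X rfl hab fun s hs hc x hx => not_lt.2 (hw s hs hc x hx)
  simp only [NoBal, not_forall, not_or, not_lt] at h
  obtain ⟨x, y, hxy, h1, h2⟩ := h
  have hp : (0 : ℝ) < e (∅ : Finset X) := by exact_mod_cast e_pos _
  have h1' : (e (∅ : Finset X) : ℝ) ≤ 3 * g y x ∅ := by exact_mod_cast h1
  have h2' : (3 * g y x ∅ : ℝ) ≤ 2 * e (∅ : Finset X) := by exact_mod_cast h2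
  refine ⟨x, y, hxy, ?_, ?_⟩
  · rw [ncard_g, ncard_e, le_div_iff₀ hp]
    linarith
  · rw [ncard_g, ncard_e, div_le_iff₀ hp]
    linarith

end Pool.Agent.Results.MP_bd7e44_co.WidthThree
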