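import Pool.Agent.Lib.MP_bd7e44_co.W2.Final

namespace Pool.Agent.Results.MP_bd7e44_co.WidthTwoGap

open Pool.Agent.Lib.MP_bd7e44_co Pool.Agent.Lib.MP_bd7e44_co.W2

/-- The exact gap above one third for posets of width two. Consider the finite posets of width at
most two with two incomparable elements `a, b` such that the number of elements incomparable to `a`
and the number of elements incomparable to `b` do not add up to three (these are the posets of
width two that are not ordinal sums of points and copies of the three-element poset with one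
relation). Every such poset has a pair `x, y` whose fraction of linear extensions with `x` above
`y` lies strictly between `c` and `1 - c`, for `c = (10999528681 - 3105 √433) / 31531330288`, and
no larger number `θ` can be put in the place of `c`. -/
theorem result :
    (∀ (X : Type) [Fintype X] [PartialOrder X],
      (∀ s : Finset X, IsAntichain (· ≤ ·) (s : Set X) → s.card ≤ 2) →
      (∃ a b : X, ¬ a ≤ b ∧ ¬ b ≤ a ∧
        {z : X | ¬ a ≤ z ∧ ¬ z ≤ a}.ncard + {z : X | ¬ b ≤ z ∧ ¬ z ≤ b}.ncard ≠ 3) →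
      ∃ x y : X, x ≠ y ∧
        (10999528681 - 3105 * Real.sqrt 433) / 31531330288 <
          (({f : X ≃ Fin (Fintype.card X) | StrictMono (⇑f) ∧ f y < f x}.ncard : ℕ) : ℝ) /
            (({f : X ≃ Fin (Fintype.card X) | StrictMono (⇑f)}.ncard : ℕ) : ℝ) ∧
        (({f : X ≃ Fin (Fintype.card X) | StrictMono (⇑f) ∧ f y < f x}.ncard : ℕ) : ℝ) /
            (({f : X ≃ Fin (Fintype.card X) | StrictMono (⇑f)}.ncard : ℕ) : ℝ) <
          1 - (10999528681 - 3105 * Real.sqrt 433) / 31531330288) ∧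
    (∀ θ : ℝ, (10999528681 - 3105 * Real.sqrt 433) / 31531330288 < θ →
      ∃ (X : Type) (_ : Fintype X) (_ : PartialOrder X),
        (∀ s : Finset X, IsAntichain (· ≤ ·) (s : Set X) → s.card ≤ 2) ∧
        (∃ a b : X, ¬ a ≤ b ∧ ¬ b ≤ a ∧
          {z : X | ¬ a ≤ z ∧ ¬ z ≤ a}.ncard + {z : X | ¬ b ≤ z ∧ ¬ z ≤ b}.ncard ≠ 3) ∧
        ∀ x y : X, x ≠ y →
          (({f : X ≃ Fin (Fintype.card X) | StrictMono (⇑f) ∧ f y < f x}.ncard : ℕ) : ℝ) /
            (({f : X ≃ Fin (Fintype.card X) | StrictMono (⇑f)}.ncard : ℕ) : ℝ) < θ ∨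
          1 - θ <
            (({f : X ≃ Fin (Fintype.card X) | StrictMono (⇑f) ∧ f y < f x}.ncard : ℕ) : ℝ) /
              (({f : X ≃ Fin (Fintype.card X) | StrictMono (⇑f)}.ncard : ℕ) : ℝ)) := by
  constructor
  · rintro X _ _ hw ⟨a, b, h1, h2, h3⟩
    have h : ¬ NoB X bs := fun h => h3 (lower hw h h1 h2)
    simp only [NoB, not_forall, not_or, not_le] at h
    obtain ⟨x, y, hxy, h4, h5⟩ := h
    have hp : (0 : ℝ) < e (∅ : Finset X) := by exact_mod_cast e_pos _
    refine ⟨x, y, hxy, ?_, ?_⟩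
    · rw [ncard_g', ncard_e', lt_div_iff₀ hp]
      exact h4
    · rw [ncard_g', ncard_e', div_lt_iff₀ hp]
      exact h5
  · intro θ hθ
    have hθ' : bs < θ := hθ
    obtain ⟨k, hk⟩ := exists_pow_lt_of_lt_one (sub_pos.2 hθ') (show (1 / 2 : ℝ) < 1 by norm_num)
    obtain ⟨X, _, _, h1, h2, h3⟩ := upper k
    refine ⟨X, inferInstance, inferInstance, h1, h2, fun x y hxy => ?_⟩
    have hp : (0 : ℝ) < e (∅ : Finset X) := by exact_mod_cast e_pos _
    rw [ncard_g', ncard_e', div_lt_iff₀ hp, lt_div_iff₀ hp]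
    rcases h3 x y hxy with h | h
    · left
      nlinarith
    · right
      nlinarith

end Pool.Agent.Results.MP_bd7e44_co.WidthTwoGap
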